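import Pool.Agent.Helper65.CG.Defs2

/-! Module K1: `Cst_ge` and copositivity for `m ≤ 3`. -/

set_option autoImplicit false

namespace Pool.Agent.Helper65.CG

open scoped Classical
open Pool.Agent.Helper65.CliqueGame

variable {n q m : ℕ}

namespace K1

theorem logb_three_ge : (3 / 2 : ℝ) ≤ Real.logb 2 3 := by
  have h : (3 : ℝ) = Real.logb 2 8 := by
    rw [show (8 : ℝ) = 2 ^ (3 : ℕ) by norm_num, Real.logb_pow, Real.logb_self_eq_one (by norm_num)]
    norm_num
  have h2 : 2 * Real.logb 2 3 = Real.logb 2 9 := by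
    rw [show (9 : ℝ) = 3 ^ (2 : ℕ) by norm_num, Real.logb_pow]
    norm_num
  have h3 : Real.logb 2 8 ≤ Real.logb 2 9 :=
    Real.logb_le_logb_of_le (by norm_num) (by norm_num) (by norm_num)
  linarith

theorem logb_four : Real.logb 2 4 = 2 := by
  rw [show (4 : ℝ) = 2 ^ (2 : ℕ) by norm_num, Real.logb_pow, Real.logb_self_eq_one (by norm_num)]
  norm_num

theorem logb_five_ge : (2 : ℝ) ≤ Real.logb 2 5 := by
  have h3 : Real.logb 2 4 ≤ Real.logb 2 5 :=
    Real.logb_le_logb_of_le (by norm_num) (by norm_num) (by norm_num)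
  rw [logb_four] at h3
  exact h3

theorem logb_five_lt : Real.logb 2 5 < 4 := by
  have h3 : Real.logb 2 5 < Real.logb 2 16 :=
    Real.logb_lt_logb (by norm_num) (by norm_num) (by norm_num)
  have : Real.logb 2 16 = 4 := by
    rw [show (16 : ℝ) = 2 ^ (4 : ℕ) by norm_num, Real.logb_pow, Real.logb_self_eq_one (by norm_num)]
    norm_num
  linarith

theorem logb_six_ge : (5 / 2 : ℝ) ≤ Real.logb 2 6 := by
  have h : (5 : ℝ) = Real.logb 2 32 := by
    rw [show (32 : ℝ) = 2 ^ (5 : ℕ) by norm_num, Real.logb_pow, Real.logb_self_eq_one (by norm_num)]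
    norm_num
  have h2 : 2 * Real.logb 2 6 = Real.logb 2 36 := by
    rw [show (36 : ℝ) = 6 ^ (2 : ℕ) by norm_num, Real.logb_pow]
    norm_num
  have h3 : Real.logb 2 32 ≤ Real.logb 2 36 :=
    Real.logb_le_logb_of_le (by norm_num) (by norm_num) (by norm_num)
  linarith

theorem logb_six_lt : Real.logb 2 6 < 4 := by
  have h3 : Real.logb 2 6 < Real.logb 2 16 :=
    Real.logb_lt_logb (by norm_num) (by norm_num) (by norm_num)
  have : Real.logb 2 16 = 4 := by
    rw [show (16 : ℝ) = 2 ^ (4 : ℕ) by norm_num, Real.logb_pow, Real.logb_self_eq_one (by norm_num)]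
    norm_num
  linarith

/-- for `m ≤ 3` every pair is fine -/
theorem pair (hm : 1 ≤ m) (hm3 : m ≤ 3) {k l : ℕ} (hk : 1 ≤ k) (hl : 1 ≤ l) :
    (k : ℝ) + l ≤ 2 * rho m (k * l) := by
  have hkl : 2 ≤ k → 2 ≤ l → k + l ≤ k * l := fun h1 h2 => by nlinarith
  have hdm := Nat.div_add_mod (k * l) m
  have hlt := Nat.mod_lt (k * l) (show 0 < m by omega)
  have h32 := logb_three_ge
  unfold rho
  set a := k * l / m with ha
  set r := k * l % m with hr
  interval_cases m
  · have hr0 : r = 0 := by omega
    rw [hr0]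
    norm_num [Real.logb_self_eq_one]
    have h1 : k + l ≤ 2 * a := by
      have : k * l = a := by omega
      rw [← this]; nlinarith
    exact_mod_cast h1
  · have e3 : ((2 : ℕ) : ℝ) + 1 = 3 := by norm_num
    rw [e3]
    have h1 : k + l ≤ 3 * a + 2 * r := by
      rcases Nat.lt_or_ge k 2 with h | h
      · have : k = 1 := by omega
        subst this
        omega
      · rcases Nat.lt_or_ge l 2 with h' | h'
        · have : l = 1 := by omega
          subst this
          omega
        · have := hkl h h'
          omega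
    have h1' : (k : ℝ) + l ≤ 3 * a + 2 * r := by exact_mod_cast h1
    have hlr : (r : ℝ) ≤ Real.logb 2 (1 + (r : ℝ)) := by
      interval_cases r
      · norm_num
      · norm_num [Real.logb_self_eq_one]
    have ha0 : (0 : ℝ) ≤ a := Nat.cast_nonneg _
    nlinarith [mul_le_mul_of_nonneg_left h32 ha0]
  · have e3 : ((3 : ℕ) : ℝ) + 1 = 4 := by norm_num
    rw [e3, logb_four]
    have ha0 : (0 : ℝ) ≤ a := Nat.cast_nonneg _
    interval_cases r
    · have h1 : k + l ≤ 4 * a := by
        rcases Nat.lt_or_ge k 2 with h | h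
        · have : k = 1 := by omega
          subst this
          omega
        · rcases Nat.lt_or_ge l 2 with h' | h'
          · have : l = 1 := by omega
            subst this
            omega
          · have := hkl h h'
            omega
      have h1' : (k : ℝ) + l ≤ 4 * a := by exact_mod_cast h1
      norm_num
      linarith
    · have h1 : k + l ≤ 4 * a + 2 := by
        rcases Nat.lt_or_ge k 2 with h | h
        · have : k = 1 := by omega
          subst this
          omega
        · rcases Nat.lt_or_ge l 2 with h' | h'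
          · have : l = 1 := by omega
            subst this
            omega
          · have := hkl h h'
            omega
      have h1' : (k : ℝ) + l ≤ 4 * a + 2 := by exact_mod_cast h1
      norm_num [Real.logb_self_eq_one]
      linarith
    · have h1 : k + l ≤ 4 * a + 3 := by
        rcases Nat.lt_or_ge k 2 with h | h
        · have : k = 1 := by omega
          subst this
          omega
        · rcases Nat.lt_or_ge l 2 with h' | h'
          · have : l = 1 := by omega
            subst this
            omega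
          · have := hkl h h'
            omega
      have h1' : (k : ℝ) + l ≤ 4 * a + 3 := by exact_mod_cast h1
      have e : (1 : ℝ) + ((2 : ℕ) : ℝ) = 3 := by norm_num
      rw [e]
      linarith

end K1

theorem Cst_ge (hm : 1 ≤ m) : (m : ℝ) / Real.logb 2 ((m : ℝ) + 1) ≤ Cst m := by
  unfold Cst
  by_cases h3 : m ≤ 3
  · rw [if_pos h3]
    have h32 := K1.logb_three_ge
    interval_cases m
    · norm_num [Real.logb_self_eq_one]
    · have e : ((2 : ℕ) : ℝ) + 1 = 3 := by norm_num
      rw [e, div_le_iff₀ (by linarith)]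
      push_cast
      linarith
    · have e : ((3 : ℕ) : ℝ) + 1 = 4 := by norm_num
      rw [e, K1.logb_four]
      norm_num
  · rw [if_neg h3]
    by_cases h5 : m ≤ 5
    · rw [if_pos h5]
      have h45 : m = 4 ∨ m = 5 := by omega
      rcases h45 with rfl | rfl
      · have e : ((4 : ℕ) : ℝ) + 1 = 5 := by norm_num
        rw [e]
        have h1 := K1.logb_five_ge
        have h2 := K1.logb_five_lt
        set c := Real.logb 2 5
        have h0 : 0 < c := by linarith
        rw [div_le_div_iff_of_pos_right h0]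
        have : (3 : ℝ) ≤ Real.sqrt (((4 : ℕ) : ℝ) * (((4 : ℕ) : ℝ) * c - 2 * c + 1) /
            (((4 : ℕ) : ℝ) - c)) := by
          apply Real.le_sqrt_of_sq_le
          rw [le_div_iff₀ (by push_cast; linarith)]
          push_cast
          linarith
        push_cast at this ⊢
        linarith
      · have e : ((5 : ℕ) : ℝ) + 1 = 6 := by norm_num
        rw [e]
        have h1 := K1.logb_six_ge
        have h2 := K1.logb_six_lt
        set c := Real.logb 2 6
        have h0 : 0 < c := by linarith
        rw [div_le_div_iff_of_pos_right h0]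
        have : (4 : ℝ) ≤ Real.sqrt (((5 : ℕ) : ℝ) * (((5 : ℕ) : ℝ) * c - 2 * c + 1) /
            (((5 : ℕ) : ℝ) - c)) := by
          apply Real.le_sqrt_of_sq_le
          rw [le_div_iff₀ (by push_cast; linarith)]
          push_cast
          linarith
        push_cast at this ⊢
        linarith
    · rw [if_neg h5]

theorem copos_small (hm : 1 ≤ m) (hm3 : m ≤ 3) {ι : Type} (T : Finset ι) (k : ι → ℕ)
    (hk : ∀ i ∈ T, 1 ≤ k i) :
    2 * (T.card : ℝ) * ∑ i ∈ T, (k i : ℝ) ≤ Cst m * ∑ i ∈ T, ∑ j ∈ T, rho m (k i * k j) := by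
  have hC : Cst m = 2 := by unfold Cst; rw [if_pos hm3]
  rw [hC]
  have h1 : ∑ i ∈ T, ∑ j ∈ T, ((k i : ℝ) + k j) ≤ ∑ i ∈ T, ∑ j ∈ T, 2 * rho m (k i * k j) :=
    Finset.sum_le_sum fun i hi => Finset.sum_le_sum fun j hj => K1.pair hm hm3 (hk i hi) (hk j hj)
  have h2 : ∑ i ∈ T, ∑ j ∈ T, ((k i : ℝ) + k j) = 2 * (T.card : ℝ) * ∑ i ∈ T, (k i : ℝ) := by
    simp only [Finset.sum_add_distrib, Finset.sum_const, nsmul_eq_mul, ← Finset.mul_sum]
    ring
  have h3 : ∑ i ∈ T, ∑ j ∈ T, 2 * rho m (k i * k j) = 2 * ∑ i ∈ T, ∑ j ∈ T, rho m (k i * k j) := by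
    simp only [Finset.mul_sum]
  linarith

end Pool.Agent.Helper65.CG
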