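import Pool.Agent.Helper57.UB.PairReg
import Pool.Agent.Helper15.UB.Exclusion
import Pool.Agent.Helper79.UB.StepCount

/-! Module S6: `Gstep`, one step of the advice induction. -/

set_option autoImplicit false

namespace Pool.Agent.Helper65.CG

open scoped Classical
open Pool.Agent.Helper65.CliqueGame

variable {n q m : ℕ}

namespace S6

/-- the features of a sample: the (class pair, edge) combinations it uses -/
noncomputable def feat (z : Conf q n × Prs q) : Finset ((Fin q × Fin q) × Sym2 (Fin n)) :=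
  z.2.biUnion (fun p => (join (z.1 p.1) (z.1 p.2)).image (fun e => (p, e)))

theorem mem_feat (z : Conf q n × Prs q) (f : (Fin q × Fin q) × Sym2 (Fin n)) :
    f ∈ feat z ↔ f.1 ∈ z.2 ∧ f.2 ∈ join (z.1 f.1.1) (z.1 f.1.2) := by
  unfold feat
  simp only [Finset.mem_biUnion, Finset.mem_image]
  constructor
  · rintro ⟨p, hp, e, he, rfl⟩
    exact ⟨hp, he⟩
  · rintro ⟨h1, h2⟩
    exact ⟨f.1, h1, f.2, h2, rfl⟩

theorem mem_UU (Z : Conf q n) (Y : Prs q) (e : Sym2 (Fin n)) :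
    e ∈ UU Z Y ↔ ∃ p ∈ Y, e ∈ join (Z p.1) (Z p.2) := by
  unfold UU
  simp only [Finset.mem_biUnion]

theorem join_card (v w : Finset (Fin n)) : (join v w).card ≤ v.card * w.card := by
  unfold join
  exact Finset.card_image_le.trans (by rw [Finset.card_product])

theorem mem_join (v w : Finset (Fin n)) (e : Sym2 (Fin n)) :
    e ∈ join v w ↔ ∃ a ∈ v, ∃ b ∈ w, s(a, b) = e := by
  unfold join
  simp only [Finset.mem_image, Finset.mem_product, Prod.exists]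
  constructor
  · rintro ⟨a, b, ⟨ha, hb⟩, h⟩
    exact ⟨a, ha, b, hb, h⟩
  · rintro ⟨a, ha, b, hb, h⟩
    exact ⟨a, b, ⟨ha, hb⟩, h⟩

/-- the pairs of values of a class pair that use an excluded edge -/
noncomputable def Bd (V : Fin q → Finset (Finset (Fin n)))
    (Ex : Finset ((Fin q × Fin q) × Sym2 (Fin n))) (p : Fin q × Fin q) :
    Finset (Finset (Fin n) × Finset (Fin n)) :=
  (V p.1 ×ˢ V p.2).filter (fun u => ∃ e ∈ join u.1 u.2, (p, e) ∈ Ex)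

theorem Bd_card (V : Fin q → Finset (Finset (Fin n)))
    (Ex : Finset ((Fin q × Fin q) × Sym2 (Fin n))) (p : Fin q × Fin q) {d : ℕ}
    (h1 : ∀ x : Fin n, ((V p.1).filter (fun v => x ∈ v)).card ≤ d)
    (h2 : ∀ x : Fin n, ((V p.2).filter (fun v => x ∈ v)).card ≤ d) :
    (Bd V Ex p).card ≤ 2 * d ^ 2 * Ex.card := by
  have key : ∀ e : Sym2 (Fin n),
      ((V p.1 ×ˢ V p.2).filter (fun u => e ∈ join u.1 u.2)).card ≤ 2 * d ^ 2 := by
    intro e
    induction e using Sym2.ind with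
    | _ a b =>
      have hsub : (V p.1 ×ˢ V p.2).filter (fun u => s(a, b) ∈ join u.1 u.2) ⊆
          (((V p.1).filter (fun v => a ∈ v)) ×ˢ ((V p.2).filter (fun v => b ∈ v))) ∪
          (((V p.1).filter (fun v => b ∈ v)) ×ˢ ((V p.2).filter (fun v => a ∈ v))) := by
        intro u hu
        obtain ⟨hu1, hu2⟩ := Finset.mem_filter.1 hu
        obtain ⟨hu3, hu4⟩ := Finset.mem_product.1 hu1
        obtain ⟨a', ha', b', hb', hab⟩ := (mem_join _ _ _).1 hu2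
        rw [Sym2.eq_iff] at hab
        rcases hab with ⟨rfl, rfl⟩ | ⟨rfl, rfl⟩
        · exact Finset.mem_union_left _ (Finset.mem_product.2
            ⟨Finset.mem_filter.2 ⟨hu3, ha'⟩, Finset.mem_filter.2 ⟨hu4, hb'⟩⟩)
        · exact Finset.mem_union_right _ (Finset.mem_product.2
            ⟨Finset.mem_filter.2 ⟨hu3, ha'⟩, Finset.mem_filter.2 ⟨hu4, hb'⟩⟩)
      refine (Finset.card_le_card hsub).trans ((Finset.card_union_le _ _).trans ?_)
      rw [Finset.card_product, Finset.card_product]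
      have := Nat.mul_le_mul (h1 a) (h2 b)
      have := Nat.mul_le_mul (h1 b) (h2 a)
      nlinarith
  have hsub : Bd V Ex p ⊆ Ex.biUnion
      (fun f => (V p.1 ×ˢ V p.2).filter (fun u => f.2 ∈ join u.1 u.2)) := by
    intro u hu
    obtain ⟨hu1, e, he, hE⟩ := Finset.mem_filter.1 hu
    exact Finset.mem_biUnion.2 ⟨(p, e), hE, Finset.mem_filter.2 ⟨hu1, he⟩⟩
  refine (Finset.card_le_card hsub).trans (Finset.card_biUnion_le.trans ?_)
  calc ∑ f ∈ Ex, ((V p.1 ×ˢ V p.2).filter (fun u => f.2 ∈ join u.1 u.2)).card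
      ≤ ∑ f ∈ Ex, 2 * d ^ 2 := Finset.sum_le_sum (fun f _ => key f.2)
    _ = 2 * d ^ 2 * Ex.card := by rw [Finset.sum_const, smul_eq_mul]; ring

theorem Ych_mem {E : Prs q} {x : ℕ} {X : Prs q} (hX : X ⊆ E) (hx : X.card ≤ x) :
    E \ X ∈ Ych E x := by
  unfold Ych
  refine Finset.mem_filter.2 ⟨Finset.mem_powerset.2 Finset.sdiff_subset, ?_⟩
  rw [Finset.sdiff_sdiff_eq_self hX]
  exact hx

theorem mem_Fam (ℓ : Sym2 (Fin n) → ℕ) (V : Fin q → Finset (Finset (Fin n)))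
    (lev : List (Lev q n)) (x : ℕ) (Z : Conf q n) :
    Z ∈ Fam ℓ V lev x ↔ (∀ P, Z P ∈ V P) ∧
      ∀ l ∈ lev, ∃ X ⊆ l.Y, X.card ≤ x ∧ Cond ℓ Z (l.Y \ X) l.Ex l.g := by
  unfold Fam
  simp only [Finset.mem_filter, Finset.mem_univ, true_and]

theorem mem_Fam_cons (ℓ : Sym2 (Fin n) → ℕ) (V : Fin q → Finset (Finset (Fin n)))
    (l : Lev q n) (lev : List (Lev q n)) (x : ℕ) (Z : Conf q n) :
    Z ∈ Fam ℓ V (l :: lev) x ↔ Z ∈ Fam ℓ V lev x ∧
      ∃ X ⊆ l.Y, X.card ≤ x ∧ Cond ℓ Z (l.Y \ X) l.Ex l.g := by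
  rw [mem_Fam, mem_Fam, List.forall_mem_cons]
  tauto

theorem Fam_card (ℓ : Sym2 (Fin n) → ℕ) (V : Fin q → Finset (Finset (Fin n)))
    (lev : List (Lev q n)) (x : ℕ) (hV : ∀ P, (V P).card ≤ n) :
    (Fam ℓ V lev x).card ≤ n ^ q := by
  have hsub : Fam ℓ V lev x ⊆ Fintype.piFinset V := by
    intro Z hZ
    exact Fintype.mem_piFinset.2 ((mem_Fam ℓ V lev x Z).1 hZ).1
  refine (Finset.card_le_card hsub).trans ?_
  rw [Fintype.card_piFinset]
  calc ∏ P, (V P).card ≤ ∏ _P : Fin q, n := Finset.prod_le_prod' (fun P _ => hV P)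
    _ = n ^ q := by rw [Finset.prod_const, Finset.card_univ, Fintype.card_fin]

theorem Ych_card (E : Prs q) (x : ℕ) : (Ych E x).card ≤ 2 ^ (q ^ 2) := by
  unfold Ych
  refine (Finset.card_filter_le _ _).trans ?_
  rw [Finset.card_powerset]
  apply Nat.pow_le_pow_right (by norm_num)
  refine (Finset.card_le_univ E).trans ?_
  rw [Fintype.card_prod, Fintype.card_fin, sq]

theorem num_a {m d q : ℕ} {L c W : ℝ} (hL : 1 ≤ L) (hc : 0 ≤ c)
    (hbig : 100 * ((m : ℝ) + 1) ^ 2 * ((d : ℝ) + 1) ^ 4 * ((q : ℝ) + 2) ^ 4 * (L + 2) *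
      (c + 1) ≤ W) :
    2 * (d : ℝ) ^ 2 * (q * L + q ^ 2 + 2) ≤ W ∧
    4 * (m : ℝ) ^ 2 * q ^ 4 * d ^ 2 ≤ W ∧
    2 * c * ((q : ℝ) + 2) ^ 4 * ((d : ℝ) + 1) ^ 2 + 1 ≤ W := by
  have hm : (0 : ℝ) ≤ m := Nat.cast_nonneg _
  have hd : (0 : ℝ) ≤ d := Nat.cast_nonneg _
  have hq : (0 : ℝ) ≤ q := Nat.cast_nonneg _
  have hM : (1 : ℝ) ≤ ((m : ℝ) + 1) ^ 2 := one_le_pow₀ (by linarith)
  have hM2 : (m : ℝ) ^ 2 ≤ ((m : ℝ) + 1) ^ 2 := by gcongr; linarith
  have hD2 : (1 : ℝ) ≤ ((d : ℝ) + 1) ^ 2 := one_le_pow₀ (by linarith)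
  have hD : ((d : ℝ) + 1) ^ 2 ≤ ((d : ℝ) + 1) ^ 4 := pow_le_pow_right₀ (by linarith) (by norm_num)
  have hD3 : (d : ℝ) ^ 2 ≤ ((d : ℝ) + 1) ^ 2 := by gcongr; linarith
  have hQ1 : (1 : ℝ) ≤ ((q : ℝ) + 2) ^ 4 := one_le_pow₀ (by linarith)
  have hQ2 : ((q : ℝ) + 2) ^ 2 ≤ ((q : ℝ) + 2) ^ 4 :=
    pow_le_pow_right₀ (by linarith) (by norm_num)
  have hQ4 : (q : ℝ) ^ 4 ≤ ((q : ℝ) + 2) ^ 4 := by gcongr; linarith
  have e1 : q * L + (q : ℝ) ^ 2 + 2 ≤ ((q : ℝ) + 2) ^ 2 * (L + 2) := by nlinarith [mul_nonneg hq hq]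
  refine ⟨?_, ?_, ?_⟩
  · refine le_trans ?_ hbig
    calc 2 * (d : ℝ) ^ 2 * (q * L + q ^ 2 + 2)
        ≤ 100 * ((d : ℝ) + 1) ^ 4 * (((q : ℝ) + 2) ^ 4 * (L + 2)) := by
          have e2 : q * L + (q : ℝ) ^ 2 + 2 ≤ ((q : ℝ) + 2) ^ 4 * (L + 2) :=
            e1.trans (mul_le_mul_of_nonneg_right hQ2 (by linarith))
          have e3 : 2 * (d : ℝ) ^ 2 ≤ 100 * ((d : ℝ) + 1) ^ 4 := by nlinarith
          exact mul_le_mul e3 e2 (by positivity) (by positivity)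
      _ = 100 * 1 * ((d : ℝ) + 1) ^ 4 * ((q : ℝ) + 2) ^ 4 * (L + 2) * 1 := by ring
      _ ≤ 100 * ((m : ℝ) + 1) ^ 2 * ((d : ℝ) + 1) ^ 4 * ((q : ℝ) + 2) ^ 4 * (L + 2) *
          (c + 1) := by
          gcongr
          linarith
  · refine le_trans ?_ hbig
    calc 4 * (m : ℝ) ^ 2 * q ^ 4 * d ^ 2 = 4 * (m : ℝ) ^ 2 * d ^ 2 * q ^ 4 * 1 * 1 := by ring
      _ ≤ 100 * ((m : ℝ) + 1) ^ 2 * ((d : ℝ) + 1) ^ 4 * ((q : ℝ) + 2) ^ 4 * (L + 2) *
          (c + 1) := by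
          gcongr
          · norm_num
          · linarith
          · linarith
          · linarith
  · refine le_trans ?_ hbig
    calc 2 * c * ((q : ℝ) + 2) ^ 4 * ((d : ℝ) + 1) ^ 2 + 1
        ≤ (2 * c + 1) * (((q : ℝ) + 2) ^ 4 * ((d : ℝ) + 1) ^ 2) := by
          have : 1 ≤ ((q : ℝ) + 2) ^ 4 * ((d : ℝ) + 1) ^ 2 := one_le_mul_of_one_le_of_one_le hQ1 hD2
          nlinarith
      _ ≤ 100 * (c + 1) * (((q : ℝ) + 2) ^ 4 * ((d : ℝ) + 1) ^ 4) := by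
          gcongr
          linarith
      _ = 100 * 1 * ((d : ℝ) + 1) ^ 4 * ((q : ℝ) + 2) ^ 4 * 1 * (c + 1) := by ring
      _ ≤ 100 * ((m : ℝ) + 1) ^ 2 * ((d : ℝ) + 1) ^ 4 * ((q : ℝ) + 2) ^ 4 * (L + 2) *
          (c + 1) := by
          gcongr
          linarith

theorem logb_le_self' {m : ℕ} (_hm : 1 ≤ m) : Real.logb 2 ((m : ℝ) + 1) ≤ m := by
  rw [Real.logb_le_iff_le_rpow (by norm_num) (by positivity), Real.rpow_natCast]
  have : m + 1 ≤ 2 ^ m := Nat.lt_two_pow_self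
  exact_mod_cast this

theorem filter_inst {α : Type} (p : α → Prop) (i₁ i₂ : DecidablePred p) (S : Finset α) :
    @Finset.filter α p i₁ S = @Finset.filter α p i₂ S := by
  rw [Subsingleton.elim i₁ i₂]

end S6

open S3 S6 in
/-- one step of the advice induction -/
theorem Gstep (hm : 1 ≤ m) (hn : 2 ≤ n) {ℓ : Sym2 (Fin n) → ℕ} (hℓ : Lab m ℓ) {d J : ℕ}
    (hd : 1 ≤ d) {c : ℝ} (hc : 0 ≤ c) (hB : Bet2 ℓ q d J c) {Ω : Type} {A : Finset Ω}
    (hA : A.Nonempty) {cv : Ω → Conf q n} {PP : Finset (Fin q)}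
    {V : Fin q → Finset (Finset (Fin n))} {ξ η : ℝ} (hξ : 0 < ξ) (hη : 0 ≤ η)
    (hreg : RegC A cv PP V ξ η) (hcv : ∀ Z ∈ A, ∀ P ∈ PP, cv Z P ∈ V P)
    (hup : ∀ P ∈ PP, lb (V P).card ≤ Lg n)
    (hVd : ∀ P ∈ PP, ∀ v ∈ V P, v.card ≤ d)
    (hVx : ∀ P ∈ PP, ∀ x : Fin n, ((V P).filter (fun v => x ∈ v)).card ≤ d)
    (halive : ∀ Z ∈ A, Alive ℓ (UU (cv Z) (prs PP)))
    {x s : ℕ} {w t : ℝ} (hw : 0 < w) (ht : 0 ≤ t) {lev : List (Lev q n)}
    (hlev : ∀ l ∈ lev, ∀ p ∈ l.Y, p.1 ∈ Pt PP V t ∧ p.2 ∈ Pt PP V t)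
    (hC : Cpx (Vt PP V t) lev x d J s) (hs1 : 1 ≤ s) (hs : s ≤ n ^ 4)
    (hst : (s : ℝ) ≤ 2 * ((q : ℝ) + 2) ^ 4 * ((d : ℝ) + 1) ^ 2 * (2 : ℝ) ^ t)
    (hr : (2 : ℝ) ^ (t + w) + 1 ≤ (n : ℝ) ^ 4)
    (E : Prs q) (hE : ∀ p ∈ E, p ∈ prs PP ∧ t + 5 * w < lb (V p.1).card + lb (V p.2).card ∧
      p.1 ∈ Pt PP V t ∧ p.2 ∈ Pt PP V t) {g : ℕ}
    (hg : ∀ Z ∈ A, ∀ X ⊆ E, X.card ≤ x → (g : ℝ) ≤ ga ℓ (UU (cv Z) (E \ X)))
    {N : ℕ} (hN : 1 ≤ N)
    (hpr : η + 2 * q + lb q + Lg n + lb N + 3 < ξ * (w / 2) * (x / (2 * q)))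
    (hfrac : (A.filter (fun Z => rst (Pt PP V t) (cv Z) ∉ Fam ℓ (Vt PP V t) lev x)).card * N <
      A.card * (N - 1))
    (hbig : 100 * ((m : ℝ) + 1) ^ 2 * ((d : ℝ) + 1) ^ 4 * ((q : ℝ) + 2) ^ 4 * (Lg n + 2) *
      (c + 1) ≤ (2 : ℝ) ^ w) :
    ∃ Ex : Finset ((Fin q × Fin q) × Sym2 (Fin n)),
      (Ex.card : ℝ) ≤ (q * Lg n + q ^ 2 + 2) * (2 : ℝ) ^ (t + 3 * w) ∧
      lb (Fam ℓ (Vt PP V t) (⟨E, Ex, g⟩ :: lev) x).card ≤
        lb (Fam ℓ (Vt PP V t) lev x).card - g + lb (Ych E x).card + 2 ∧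
      N * (A.filter (fun Z => rst (Pt PP V t) (cv Z) ∈ Fam ℓ (Vt PP V t) lev x ∧
        rst (Pt PP V t) (cv Z) ∉ Fam ℓ (Vt PP V t) (⟨E, Ex, g⟩ :: lev) x)).card ≤ A.card := by
  have hL : 1 ≤ Lg n := by
    unfold Lg
    rw [Real.le_logb_iff_rpow_le (by norm_num) (by positivity), Real.rpow_one]
    exact_mod_cast hn
  obtain ⟨hna, hnb, hnc⟩ := num_a (m := m) (d := d) (q := q) hL hc hbig
  have hq0 : (0 : ℝ) ≤ q := Nat.cast_nonneg _
  have h2pos : ∀ y : ℝ, (0 : ℝ) < (2 : ℝ) ^ y := fun y => Real.rpow_pos_of_pos (by norm_num) y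
  have hone : ∀ y : ℝ, 0 ≤ y → (1 : ℝ) ≤ (2 : ℝ) ^ y := fun y hy =>
    Real.one_le_rpow (by norm_num) hy
  -- the excluded features
  set p₀ : ℝ := (2 : ℝ) ^ (-(t + 3 * w)) with hp₀
  have hp0 : 0 < p₀ := h2pos _
  have hp1 : p₀ < 1 := Real.rpow_lt_one_of_one_lt_of_neg (by norm_num) (by linarith)
  have hpinv : p₀ * (2 : ℝ) ^ (t + 3 * w) = 1 := by
    rw [hp₀, ← Real.rpow_add (by norm_num)]
    norm_num
  set F := Fam ℓ (Vt PP V t) lev x with hF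
  set S₀ := (F ×ˢ Ych E x).filter
    (fun z => Alive ℓ (UU z.1 z.2) ∧ (g : ℝ) ≤ ga ℓ (UU z.1 z.2)) with hS₀
  obtain ⟨Ex, hExc, hEx0⟩ := exclusion S₀ feat hp0 hp1
  set Sh := S₀.filter (fun s => Disjoint (feat s) Ex) with hSh
  have hEx : ∀ f : (Fin q × Fin q) × Sym2 (Fin n),
      ((Sh.filter (fun z => f ∈ feat z)).card : ℝ) ≤ p₀ * Sh.card := by
    intro f
    have h := hEx0 f
    rw [filter_inst (fun s : Conf q n × Prs q => Disjoint (feat s) Ex) _ _ S₀] at h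
    refine (le_of_eq ?_).trans h
    exact congrArg (fun s : Finset (Conf q n × Prs q) => ((s.card : ℕ) : ℝ))
      (filter_inst _ _ _ _)
  set F' := Fam ℓ (Vt PP V t) (⟨E, Ex, g⟩ :: lev) x with hF'
  have hPt : ∀ P ∈ Pt PP V t, P ∈ PP := fun P hP => (Finset.mem_filter.1 hP).1
  have hVt : ∀ P ∈ Pt PP V t, Vt PP V t P = V P := fun P hP => by unfold Vt; rw [if_pos hP]
  have hVt' : ∀ P, P ∉ Pt PP V t → Vt PP V t P = {∅} := fun P hP => by
    unfold Vt; rw [if_neg hP]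
  have hVn : ∀ P, (Vt PP V t P).card ≤ n := by
    intro P
    by_cases hP : P ∈ Pt PP V t
    · rw [hVt P hP]
      by_contra hcon
      push Not at hcon
      have h1 := hup P (hPt P hP)
      have h2 : Lg n < lb (V P).card :=
        Real.logb_lt_logb (by norm_num) (by positivity) (by exact_mod_cast hcon)
      linarith
    · rw [hVt' P hP, Finset.card_singleton]
      omega
  -- claim 1
  have hc1 : (Ex.card : ℝ) ≤ (q * Lg n + q ^ 2 + 2) * (2 : ℝ) ^ (t + 3 * w) := by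
    have hlog : Real.log (S₀.card : ℝ) ≤ q * Lg n + q ^ 2 := by
      have hcard : S₀.card ≤ n ^ q * 2 ^ (q ^ 2) := by
        refine (Finset.card_filter_le _ _).trans ?_
        rw [Finset.card_product]
        exact Nat.mul_le_mul (Fam_card ℓ _ lev x hVn) (Ych_card E x)
      have hnonneg : 0 ≤ q * Lg n + (q : ℝ) ^ 2 := by positivity
      rcases Nat.eq_zero_or_pos S₀.card with h0 | h0
      · rw [h0]; simpa using hnonneg
      · have hlog2 : Real.log 2 ≤ 1 := by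
          have := Real.log_two_lt_d9
          linarith
        have hlog2' : 0 < Real.log 2 := Real.log_pos (by norm_num)
        have hLg : Real.log (n : ℝ) = Lg n * Real.log 2 := by
          unfold Lg Real.logb
          field_simp
        calc Real.log (S₀.card : ℝ) ≤ Real.log ((n : ℝ) ^ q * 2 ^ (q ^ 2)) := by
              apply Real.log_le_log (by exact_mod_cast h0)
              exact_mod_cast hcard
          _ = (q * Lg n + (q : ℝ) ^ 2) * Real.log 2 := by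
              rw [Real.log_mul (by positivity) (by positivity), Real.log_pow, Real.log_pow, hLg]
              push_cast
              ring
          _ ≤ (q * Lg n + (q : ℝ) ^ 2) * 1 := mul_le_mul_of_nonneg_left hlog2 hnonneg
          _ = _ := by ring
    have h1 : Real.log (S₀.card : ℝ) / p₀ ≤ (q * Lg n + q ^ 2) * (2 : ℝ) ^ (t + 3 * w) := by
      rw [div_le_iff₀ hp0]
      calc Real.log (S₀.card : ℝ) ≤ (q * Lg n + q ^ 2) := hlog
        _ = (q * Lg n + q ^ 2) * (p₀ * (2 : ℝ) ^ (t + 3 * w)) := by rw [hpinv, mul_one]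
        _ = _ := by ring
    have h2 := hone (t + 3 * w) (by linarith)
    nlinarith
  -- claim 3
  have hrst : ∀ Z : Conf q n, ∀ P ∈ Pt PP V t, rst (Pt PP V t) Z P = Z P := fun Z P hP => by
    unfold rst; rw [if_pos hP]
  have hUUrst : ∀ Z : Conf q n, ∀ Y ⊆ E, UU (rst (Pt PP V t) Z) Y = UU Z Y := by
    intro Z Y hY
    ext e
    rw [mem_UU, mem_UU]
    constructor
    · rintro ⟨p, hp, he⟩
      obtain ⟨-, -, h1, h2⟩ := hE p (hY hp)
      rw [hrst Z _ h1, hrst Z _ h2] at he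
      exact ⟨p, hp, he⟩
    · rintro ⟨p, hp, he⟩
      obtain ⟨-, -, h1, h2⟩ := hE p (hY hp)
      refine ⟨p, hp, ?_⟩
      rw [hrst Z _ h1, hrst Z _ h2]
      exact he
  have hc3 : N * (A.filter (fun Z => rst (Pt PP V t) (cv Z) ∈ F ∧
        rst (Pt PP V t) (cv Z) ∉ F')).card ≤ A.card := by
    have hpair := pairreg hA hξ hη hreg hcv hup (by omega) (w := w / 2) (by linarith) E
      (fun p hp => by
        obtain ⟨-, -, h1, h2⟩ := hE p hp
        exact ⟨hPt _ h1, hPt _ h2⟩) (Bd V Ex)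
      (fun p hp => by
        obtain ⟨-, hlb, h1, h2⟩ := hE p hp
        rcases Finset.eq_empty_or_nonempty (Bd V Ex p) with h0 | h0
        · exact Or.inr h0
        · left
          have hBc := Bd_card V Ex p (hVx _ (hPt _ h1)) (hVx _ (hPt _ h2))
          have hBc' : ((Bd V Ex p).card : ℝ) ≤ (2 : ℝ) ^ (t + 4 * w) := by
            calc ((Bd V Ex p).card : ℝ) ≤ 2 * (d : ℝ) ^ 2 * Ex.card := by exact_mod_cast hBc
              _ ≤ 2 * (d : ℝ) ^ 2 * ((q * Lg n + q ^ 2 + 2) * (2 : ℝ) ^ (t + 3 * w)) :=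
                mul_le_mul_of_nonneg_left hc1 (by positivity)
              _ = (2 * (d : ℝ) ^ 2 * (q * Lg n + q ^ 2 + 2)) * (2 : ℝ) ^ (t + 3 * w) := by ring
              _ ≤ (2 : ℝ) ^ w * (2 : ℝ) ^ (t + 3 * w) :=
                mul_le_mul_of_nonneg_right hna (h2pos _).le
              _ = (2 : ℝ) ^ (t + 4 * w) := by
                rw [← Real.rpow_add (by norm_num)]
                congr 1
                ring
          have h3 := Real.logb_le_logb_of_le (b := 2) (by norm_num)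
            (by exact_mod_cast h0.card_pos) hBc'
          rw [Real.logb_rpow (by norm_num) (by norm_num)] at h3
          have h4 : lb (Bd V Ex p).card ≤ t + 4 * w := h3
          linarith) (x := x) (N := N) hN hpr
    refine le_trans (Nat.mul_le_mul_left N (Finset.card_le_card ?_)) hpair
    intro Z hZ
    obtain ⟨hZA, hZF, hZF'⟩ := Finset.mem_filter.1 hZ
    refine Finset.mem_filter.2 ⟨hZA, ?_⟩
    by_contra hcon
    push Not at hcon
    apply hZF'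
    rw [hF', mem_Fam_cons]
    refine ⟨hZF, E.filter (fun p => (cv Z p.1, cv Z p.2) ∈ Bd V Ex p), Finset.filter_subset _ _,
      hcon, ?_⟩
    refine ⟨?_, ?_, ?_⟩
    · intro p hp e he
      have hpE : p ∈ E := (Finset.mem_sdiff.1 hp).1
      obtain ⟨-, -, h1, h2⟩ := hE p hpE
      rw [hrst (cv Z) _ h1, hrst (cv Z) _ h2] at he
      intro hmem
      apply (Finset.mem_sdiff.1 hp).2
      refine Finset.mem_filter.2 ⟨hpE, ?_⟩
      unfold Bd
      exact Finset.mem_filter.2 ⟨Finset.mem_product.2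
        ⟨hcv Z hZA _ (hPt _ h1), hcv Z hZA _ (hPt _ h2)⟩, e, he, hmem⟩
    · rw [hUUrst (cv Z) _ Finset.sdiff_subset]
      intro e he
      obtain ⟨p, hp, he'⟩ := (mem_UU _ _ _).1 he
      exact halive Z hZA e ((mem_UU _ _ _).2 ⟨p, (hE p (Finset.mem_sdiff.1 hp).1).1, he'⟩)
    · rw [hUUrst (cv Z) _ Finset.sdiff_subset]
      exact hg Z hZA _ (Finset.filter_subset _ _) hcon
  refine ⟨Ex, hc1, ?_, hc3⟩
  -- claim 2
  have hF'ne : F'.Nonempty := by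
    by_contra hcon
    rw [Finset.not_nonempty_iff_eq_empty] at hcon
    have hsplit : A.card = (A.filter (fun Z => rst (Pt PP V t) (cv Z) ∉ F)).card +
        (A.filter (fun Z => rst (Pt PP V t) (cv Z) ∈ F ∧ rst (Pt PP V t) (cv Z) ∉ F')).card := by
      have h1 := Finset.card_filter_add_card_filter_not (s := A)
        (fun Z => rst (Pt PP V t) (cv Z) ∈ F)
      have h2 : A.filter (fun Z => rst (Pt PP V t) (cv Z) ∈ F ∧
          rst (Pt PP V t) (cv Z) ∉ F') = A.filter (fun Z => rst (Pt PP V t) (cv Z) ∈ F) := by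
        apply Finset.filter_congr
        intro Z _
        rw [hcon]
        simp
      rw [h2]
      omega
    have h1 : A.card * N = (A.filter (fun Z => rst (Pt PP V t) (cv Z) ∉ F)).card * N +
        N * (A.filter (fun Z => rst (Pt PP V t) (cv Z) ∈ F ∧
          rst (Pt PP V t) (cv Z) ∉ F')).card := by
      conv_lhs => rw [hsplit]
      ring
    have h2 : A.card * (N - 1) + A.card = A.card * N := by
      obtain ⟨N', rfl⟩ : ∃ N', N = N' + 1 := ⟨N - 1, by omega⟩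
      simp only [Nat.add_sub_cancel]
      ring
    omega
  -- the map into `Sh`
  have hX : ∀ Z : Conf q n, ∃ X : Prs q, Z ∈ F' → X ⊆ E ∧ X.card ≤ x ∧
      Cond ℓ Z (E \ X) Ex g := by
    intro Z
    by_cases hZ : Z ∈ F'
    · rw [hF', mem_Fam_cons] at hZ
      obtain ⟨-, X, h1, h2, h3⟩ := hZ
      exact ⟨X, fun _ => ⟨h1, h2, h3⟩⟩
    · exact ⟨∅, fun h => absurd h hZ⟩
  choose X hX using hX
  have hmap : ∀ Z ∈ F', (Z, E \ X Z) ∈ Sh := by
    intro Z hZ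
    obtain ⟨h1, h2, h3, h4, h5⟩ := hX Z hZ
    have hZF : Z ∈ F := by
      rw [hF', mem_Fam_cons] at hZ
      exact hZ.1
    refine Finset.mem_filter.2 ⟨Finset.mem_filter.2 ⟨Finset.mem_product.2
      ⟨hZF, Ych_mem h1 h2⟩, h4, h5⟩, ?_⟩
    rw [Finset.disjoint_left]
    intro f hf hfE
    obtain ⟨hf1, hf2⟩ := (mem_feat _ _).1 hf
    exact h3 f.1 hf1 f.2 hf2 hfE
  have hcard' : F'.card ≤ Sh.card :=
    Finset.card_le_card_of_injOn (fun Z => (Z, E \ X Z)) hmap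
      (fun Z _ Z' _ h => (Prod.ext_iff.1 h).1)
  have hShne : Sh.Nonempty := by
    obtain ⟨Z, hZ⟩ := hF'ne
    exact ⟨_, hmap Z hZ⟩
  -- the number of samples
  obtain ⟨r, hr1, hr2, hr3⟩ : ∃ r : ℕ, 1 ≤ r ∧ (2 : ℝ) ^ (t + w) ≤ r ∧
      (r : ℝ) ≤ (2 : ℝ) ^ (t + w) + 1 := by
    refine ⟨⌈(2 : ℝ) ^ (t + w)⌉₊, ?_, Nat.le_ceil _, (Nat.ceil_lt_add_one (h2pos _).le).le⟩
    exact Nat.one_le_iff_ne_zero.2 (by
      rw [Ne, Nat.ceil_eq_zero]
      push Not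
      exact h2pos _)
  have hrn : r ≤ n ^ 4 := by
    have : (r : ℝ) ≤ (n : ℝ) ^ 4 := hr3.trans hr
    exact_mod_cast this
  have hShF : ∀ z ∈ Sh, (z.1 ∈ F ∧ z.2 ∈ Ych E x) ∧ Alive ℓ (UU z.1 z.2) ∧
      (g : ℝ) ≤ ga ℓ (UU z.1 z.2) := by
    intro z hz
    obtain ⟨h1, -⟩ := Finset.mem_filter.1 hz
    obtain ⟨h2, h3, h4⟩ := Finset.mem_filter.1 h1
    exact ⟨Finset.mem_product.1 h2, h3, h4⟩
  have hpop : ∀ a, 2 ≤ a → ((Sh.filter (fun z => ∃ e ∈ UU z.1 z.2, ℓ e = a)).card : ℝ) ≤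
      ((m : ℝ) * q ^ 2 * p₀) * Sh.card := by
    intro a ha
    set T := (Finset.univ.filter (fun e : Sym2 (Fin n) => ℓ e = a)) ×ˢ
      (Finset.univ : Finset (Fin q × Fin q)) with hT
    have hsub : Sh.filter (fun z => ∃ e ∈ UU z.1 z.2, ℓ e = a) ⊆
        T.biUnion (fun f => Sh.filter (fun z => ((f.2, f.1) : (Fin q × Fin q) × Sym2 (Fin n)) ∈
          feat z)) := by
      intro z hz
      obtain ⟨hz1, e, he, hea⟩ := Finset.mem_filter.1 hz
      obtain ⟨p, hp, hep⟩ := (mem_UU _ _ _).1 he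
      exact Finset.mem_biUnion.2 ⟨(e, p), Finset.mem_product.2
        ⟨Finset.mem_filter.2 ⟨Finset.mem_univ _, hea⟩, Finset.mem_univ _⟩,
        Finset.mem_filter.2 ⟨hz1, (mem_feat _ _).2 ⟨hp, hep⟩⟩⟩
    have hTc : (T.card : ℝ) ≤ m * q ^ 2 := by
      have : T.card ≤ m * q ^ 2 := by
        rw [hT, Finset.card_product, Finset.card_univ, Fintype.card_prod, Fintype.card_fin, sq]
        exact Nat.mul_le_mul_right _ (hℓ.size a ha)
      exact_mod_cast this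
    calc ((Sh.filter (fun z => ∃ e ∈ UU z.1 z.2, ℓ e = a)).card : ℝ)
        ≤ ((∑ f ∈ T, (Sh.filter (fun z => ((f.2, f.1) : (Fin q × Fin q) × Sym2 (Fin n)) ∈
          feat z)).card : ℕ) : ℝ) := by
          exact_mod_cast (Finset.card_le_card hsub).trans Finset.card_biUnion_le
      _ = ∑ f ∈ T, ((Sh.filter (fun z => ((f.2, f.1) : (Fin q × Fin q) × Sym2 (Fin n)) ∈
          feat z)).card : ℝ) := by push_cast; rfl
      _ ≤ ∑ f ∈ T, p₀ * Sh.card := Finset.sum_le_sum (fun f _ => hEx _)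
      _ = T.card * (p₀ * Sh.card) := by rw [Finset.sum_const, nsmul_eq_mul]
      _ ≤ (m * q ^ 2) * (p₀ * Sh.card) := mul_le_mul_of_nonneg_right hTc (by positivity)
      _ = _ := by ring
  have hQ : ∀ z ∈ Sh, ((((UU z.1 z.2).image ℓ).filter (fun a => 2 ≤ a)).card : ℝ) ≤
      (q : ℝ) ^ 2 * d ^ 2 := by
    intro z hz
    obtain ⟨⟨h1, h2⟩, -, -⟩ := hShF z hz
    have hzd : ∀ P, (z.1 P).card ≤ d := by
      intro P
      exact hC.2.2.2.1 P _ (((mem_Fam _ _ _ _ _).1 h1).1 P)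
    have h3 : (((UU z.1 z.2).image ℓ).filter (fun a => 2 ≤ a)).card ≤ q ^ 2 * d ^ 2 := by
      calc (((UU z.1 z.2).image ℓ).filter (fun a => 2 ≤ a)).card ≤ (UU z.1 z.2).card :=
            (Finset.card_filter_le _ _).trans Finset.card_image_le
        _ ≤ ∑ p ∈ z.2, (join (z.1 p.1) (z.1 p.2)).card := by
            unfold UU
            exact Finset.card_biUnion_le
        _ ≤ ∑ p ∈ z.2, d ^ 2 := Finset.sum_le_sum (fun p _ => by
            refine (join_card _ _).trans ?_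
            rw [sq]
            exact Nat.mul_le_mul (hzd _) (hzd _))
        _ = z.2.card * d ^ 2 := by rw [Finset.sum_const, smul_eq_mul]
        _ ≤ q ^ 2 * d ^ 2 := by
            apply Nat.mul_le_mul_right
            refine (Finset.card_le_univ _).trans ?_
            rw [Fintype.card_prod, Fintype.card_fin, sq]
    exact_mod_cast h3
  have hstep := stepcount hm hℓ hB hs1 hs hr1 hrn hC E (y := x) Sh hShne
    (fun z hz => (hShF z hz).1) (fun z hz => (hShF z hz).2.1) (g := (g : ℝ))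
    (fun z hz => (hShF z hz).2.2) (p := (m : ℝ) * q ^ 2 * p₀) (by positivity) hpop hQ
  have hlbmono : lb F'.card ≤ lb Sh.card := lb_mono hF'ne.card_pos hcard'
  -- numerics
  set W := (2 : ℝ) ^ w with hW
  have hW1 : 1 ≤ W := hone w hw.le
  have hrpos : (0 : ℝ) < r := by exact_mod_cast hr1
  have hlog := logb_le_self' hm
  have hlog0 : 0 ≤ Real.logb 2 ((m : ℝ) + 1) := Real.logb_nonneg (by norm_num) (by
    have : (0 : ℝ) ≤ m := Nat.cast_nonneg _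
    linarith)
  have htw : (2 : ℝ) ^ (t + w) = (2 : ℝ) ^ t * W := Real.rpow_add (by norm_num) _ _
  have ht1 : (1 : ℝ) ≤ (2 : ℝ) ^ t := hone t ht
  have hbnd1 : 2 * Real.logb 2 ((m : ℝ) + 1) * r * ((m : ℝ) * q ^ 2 * p₀) *
      ((q : ℝ) ^ 2 * d ^ 2) ≤ 1 := by
    have hrr : (r : ℝ) ≤ 2 * ((2 : ℝ) ^ t * W) := by
      have : 1 ≤ (2 : ℝ) ^ t * W := one_le_mul_of_one_le_of_one_le ht1 hW1
      rw [htw] at hr3
      linarith
    have hpW : (2 : ℝ) ^ t * W * p₀ * W ^ 2 = 1 := by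
      have h3 : (2 : ℝ) ^ (t + 3 * w) = (2 : ℝ) ^ t * W ^ 3 := by
        rw [Real.rpow_add (by norm_num), hW, ← Real.rpow_natCast, ← Real.rpow_mul (by norm_num)]
        congr 2
        push_cast
        ring
      rw [h3] at hpinv
      calc (2 : ℝ) ^ t * W * p₀ * W ^ 2 = p₀ * ((2 : ℝ) ^ t * W ^ 3) := by ring
        _ = 1 := hpinv
    have hWpos : 0 < W := by linarith
    have hm0 : (0 : ℝ) ≤ m := Nat.cast_nonneg _
    calc 2 * Real.logb 2 ((m : ℝ) + 1) * r * ((m : ℝ) * q ^ 2 * p₀) * ((q : ℝ) ^ 2 * d ^ 2)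
        ≤ 2 * (m : ℝ) * (2 * ((2 : ℝ) ^ t * W)) * ((m : ℝ) * q ^ 2 * p₀) *
          ((q : ℝ) ^ 2 * d ^ 2) := by gcongr
      _ = (4 * (m : ℝ) ^ 2 * q ^ 4 * d ^ 2) * ((2 : ℝ) ^ t * W * p₀) := by ring
      _ ≤ W * ((2 : ℝ) ^ t * W * p₀) := mul_le_mul_of_nonneg_right hnb (by positivity)
      _ ≤ W ^ 2 * ((2 : ℝ) ^ t * W * p₀) := by
          apply mul_le_mul_of_nonneg_right _ (by positivity)
          nlinarith
      _ = 1 := by rw [← hpW]; ring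
  have hbnd2 : (c * s + 1) / r ≤ 1 := by
    rw [div_le_one hrpos]
    calc c * s + 1 ≤ c * (2 * ((q : ℝ) + 2) ^ 4 * ((d : ℝ) + 1) ^ 2 * (2 : ℝ) ^ t) +
          (2 : ℝ) ^ t := add_le_add (mul_le_mul_of_nonneg_left hst hc) ht1
      _ = (2 * c * ((q : ℝ) + 2) ^ 4 * ((d : ℝ) + 1) ^ 2 + 1) * (2 : ℝ) ^ t := by ring
      _ ≤ W * (2 : ℝ) ^ t := mul_le_mul_of_nonneg_right hnc (by positivity)
      _ = (2 : ℝ) ^ (t + w) := by rw [htw]; ring
      _ ≤ r := hr2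
  linarith

end Pool.Agent.Helper65.CG
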