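import Pool.Agent.Helper65.CG.Defs2

/-! Module S3: `pairreg`. -/

set_option autoImplicit false

namespace Pool.Agent.Helper65.CG

open scoped Classical
open Pool.Agent.Helper65.CliqueGame

variable {n q m : ℕ}

namespace S3

theorem lb_nonneg (k : ℕ) : 0 ≤ lb k := by
  unfold lb
  rcases Nat.eq_zero_or_pos k with h | h
  · subst h; simp
  · exact Real.logb_nonneg (by norm_num) (by exact_mod_cast h)

theorem lb_mono {a b : ℕ} (ha : 0 < a) (h : a ≤ b) : lb a ≤ lb b :=
  Real.logb_le_logb_of_le (by norm_num) (by exact_mod_cast ha) (by exact_mod_cast h)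

theorem lb_mul {a b : ℕ} (ha : 0 < a) (hb : 0 < b) : lb (a * b) = lb a + lb b := by
  unfold lb
  rw [Nat.cast_mul, Real.logb_mul (by positivity) (by positivity)]

theorem lb_two : lb 2 = 1 := by
  unfold lb
  exact Real.logb_self_eq_one (by norm_num)

theorem lb_two_pow (k : ℕ) : lb (2 ^ k) = k := by
  unfold lb
  rw [Nat.cast_pow, Real.logb_pow]
  push_cast
  rw [Real.logb_self_eq_one (by norm_num), mul_one]

theorem two_rpow_lb {a : ℕ} (ha : 0 < a) : (2 : ℝ) ^ lb a = a := by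
  unfold lb
  exact Real.rpow_logb (by norm_num) (by norm_num) (by exact_mod_cast ha)

/-- pigeonhole in logarithmic form -/
theorem pigeon {α β : Type} (s : Finset α) (t : Finset β) (f : α → β) (hs : s.Nonempty)
    (hf : ∀ a ∈ s, f a ∈ t) :
    ∃ y ∈ t, ∃ s' : Finset α, (∀ a ∈ s', a ∈ s ∧ f a = y) ∧ s'.Nonempty ∧
      lb s.card - lb t.card ≤ lb s'.card := by
  have ht : t.Nonempty := by
    obtain ⟨a, ha⟩ := hs
    exact ⟨f a, hf a ha⟩
  have ht0 : (0 : ℝ) < t.card := by exact_mod_cast ht.card_pos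
  have hs0 : (0 : ℝ) < s.card := by exact_mod_cast hs.card_pos
  obtain ⟨y, hy, hb⟩ := Finset.exists_le_card_fiber_of_nsmul_le_card_of_maps_to
    (s := s) (t := t) (f := f) (b := (s.card : ℝ) / t.card) hf ht
    (by rw [nsmul_eq_mul, mul_div_cancel₀ _ ht0.ne'])
  have hpos : (0 : ℝ) < (s.card : ℝ) / t.card := by positivity
  have hc : (0 : ℝ) < (s.filter (fun a => f a = y)).card := lt_of_lt_of_le hpos hb
  refine ⟨y, hy, s.filter (fun a => f a = y), fun a ha => Finset.mem_filter.1 ha, ?_, ?_⟩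
  · rw [← Finset.card_pos]; exact_mod_cast hc
  · unfold lb
    rw [← Real.logb_div hs0.ne' ht0.ne']
    exact Real.logb_le_logb_of_le (by norm_num) hpos hb

/-- the heavy values of the first class of a pair -/
noncomputable def heavy (V : Fin q → Finset (Finset (Fin n)))
    (Bad : Fin q × Fin q → Finset (Finset (Fin n) × Finset (Fin n))) (w : ℝ)
    (p : Fin q × Fin q) : Finset (Finset (Fin n)) :=
  (V p.1).filter (fun v => (2 : ℝ) ^ (lb (V p.2).card - w) ≤
    (((Bad p).filter (fun u => u.1 = v)).card : ℝ))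

theorem heavy_card (V : Fin q → Finset (Finset (Fin n)))
    (Bad : Fin q × Fin q → Finset (Finset (Fin n) × Finset (Fin n))) (w : ℝ)
    (p : Fin q × Fin q)
    (h : lb (Bad p).card ≤ lb (V p.1).card + lb (V p.2).card - 2 * w ∨ Bad p = ∅)
    (hne : (heavy V Bad w p).Nonempty) :
    lb (heavy V Bad w p).card ≤ lb (V p.1).card - w := by
  have hsum : (heavy V Bad w p).card * (2 : ℝ) ^ (lb (V p.2).card - w) ≤ (Bad p).card := by
    have h1 : ∑ v ∈ heavy V Bad w p, ((Bad p).filter (fun u => u.1 = v)).card ≤ (Bad p).card := by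
      have := Finset.card_eq_sum_card_fiberwise (f := fun u : Finset (Fin n) × Finset (Fin n) => u.1)
        (s := (Bad p).filter (fun u => u.1 ∈ heavy V Bad w p)) (t := heavy V Bad w p)
        (by intro u hu; simp only [Finset.coe_filter, Set.mem_ofPred_eq] at hu; exact hu.2)
      calc ∑ v ∈ heavy V Bad w p, ((Bad p).filter (fun u => u.1 = v)).card
          = ((Bad p).filter (fun u => u.1 ∈ heavy V Bad w p)).card := by
            rw [this]
            apply Finset.sum_congr rfl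
            intro v hv
            congr 1
            ext u
            simp only [Finset.mem_filter]
            constructor
            · rintro ⟨h1, h2⟩
              exact ⟨⟨h1, h2 ▸ hv⟩, h2⟩
            · rintro ⟨⟨h1, _⟩, h2⟩
              exact ⟨h1, h2⟩
        _ ≤ (Bad p).card := Finset.card_filter_le _ _
    have h2 : (heavy V Bad w p).card * (2 : ℝ) ^ (lb (V p.2).card - w) ≤
        ∑ v ∈ heavy V Bad w p, (((Bad p).filter (fun u => u.1 = v)).card : ℝ) := by
      rw [← nsmul_eq_mul]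
      apply Finset.card_nsmul_le_sum
      intro v hv
      unfold heavy at hv
      exact (Finset.mem_filter.1 hv).2
    have h3 : ∑ v ∈ heavy V Bad w p, (((Bad p).filter (fun u => u.1 = v)).card : ℝ) ≤
        (Bad p).card := by exact_mod_cast h1
    linarith
  have hpos : (0 : ℝ) < (heavy V Bad w p).card := by exact_mod_cast hne.card_pos
  have h2p : (0 : ℝ) < (2 : ℝ) ^ (lb (V p.2).card - w) := by positivity
  have hB : (0 : ℝ) < (Bad p).card := lt_of_lt_of_le (by positivity) hsum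
  rcases h with h | h
  · have hl := Real.logb_le_logb_of_le (b := 2) (by norm_num) (by positivity) hsum
    rw [Real.logb_mul hpos.ne' h2p.ne', Real.logb_rpow (by norm_num) (by norm_num)] at hl
    unfold lb at h hl ⊢
    linarith
  · rw [h] at hB
    simp at hB

/-- what a code says about `Z` -/
def Good (cv : Conf q n) (PP : Finset (Fin q)) (V : Fin q → Finset (Finset (Fin n))) (w : ℝ)
    (Y : Prs q) (Bad : Fin q × Fin q → Finset (Finset (Fin n) × Finset (Fin n))) (x : ℕ)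
    (c : Bool × Fin q × Finset (Fin q)) : Prop :=
  c.2.1 ∈ PP ∧ c.2.2 ⊆ PP ∧ (x : ℝ) / (2 * q) ≤ c.2.2.card ∧
  (c.1 = false → ∀ P' ∈ c.2.2, (P', c.2.1) ∈ Y ∧ cv P' ∈ heavy V Bad w (P', c.2.1)) ∧
  (c.1 = true → ∀ P' ∈ c.2.2, (c.2.1, P') ∈ Y ∧ (cv c.2.1, cv P') ∈ Bad (c.2.1, P') ∧
    cv c.2.1 ∉ heavy V Bad w (c.2.1, P'))

theorem exists_code (cv : Conf q n) (PP : Finset (Fin q)) (V : Fin q → Finset (Finset (Fin n)))
    (w : ℝ) (Y : Prs q) (hY : ∀ p ∈ Y, p.1 ∈ PP ∧ p.2 ∈ PP)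
    (Bad : Fin q × Fin q → Finset (Finset (Fin n) × Finset (Fin n))) (x : ℕ) (hx : 0 < x)
    (h : x < (Y.filter (fun p => (cv p.1, cv p.2) ∈ Bad p)).card) :
    ∃ c, Good cv PP V w Y Bad x c := by
  set bp := Y.filter (fun p => (cv p.1, cv p.2) ∈ Bad p) with hbp
  have hq0 : 0 < q := by
    rcases Nat.eq_zero_or_pos q with h0 | h0
    · subst h0
      have : bp = ∅ := by
        apply Finset.eq_empty_of_forall_notMem
        intro p
        exact p.1.elim0
      rw [this] at h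
      simp at h
    · exact h0
  have hqR : (0 : ℝ) < q := by exact_mod_cast hq0
  haveI : Nonempty (Fin q) := ⟨⟨0, hq0⟩⟩
  have hxR : (0 : ℝ) < x := by exact_mod_cast hx
  have hsplit := Finset.card_filter_add_card_filter_not (s := bp)
    (fun p => cv p.1 ∈ heavy V Bad w p)
  have hlt : (x : ℝ) < bp.card := by exact_mod_cast h
  have hsplitR : (((bp.filter (fun p => cv p.1 ∈ heavy V Bad w p)).card : ℕ) : ℝ) +
      ((bp.filter (fun p => ¬ cv p.1 ∈ heavy V Bad w p)).card : ℕ) = (bp.card : ℝ) := by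
    exact_mod_cast hsplit
  rcases le_total ((x : ℝ) / 2) ((bp.filter (fun p => cv p.1 ∈ heavy V Bad w p)).card : ℝ)
    with hc | hc
  · obtain ⟨Q, -, hQ⟩ := Finset.exists_le_card_fiber_of_nsmul_le_card_of_maps_to
      (s := bp.filter (fun p => cv p.1 ∈ heavy V Bad w p)) (t := (Finset.univ : Finset (Fin q)))
      (f := fun p => p.2) (b := (x : ℝ) / (2 * q)) (fun a _ => Finset.mem_univ _)
      Finset.univ_nonempty (by
        rw [nsmul_eq_mul, Finset.card_univ, Fintype.card_fin]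
        have : (q : ℝ) * ((x : ℝ) / (2 * q)) = x / 2 := by field_simp
        rw [this]; exact hc)
    set F := (bp.filter (fun p => cv p.1 ∈ heavy V Bad w p)).filter (fun p => p.2 = Q) with hF
    have hFne : F.Nonempty := by
      rw [← Finset.card_pos]
      have : (0 : ℝ) < (x : ℝ) / (2 * q) := by positivity
      exact_mod_cast lt_of_lt_of_le this hQ
    have hcard : (F.image Prod.fst).card = F.card := by
      apply Finset.card_image_of_injOn
      intro a ha b hb hab
      have ha2 : a.2 = Q := (Finset.mem_filter.1 ha).2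
      have hb2 : b.2 = Q := (Finset.mem_filter.1 hb).2
      exact Prod.ext hab (ha2.trans hb2.symm)
    have hmem : ∀ P' ∈ F.image Prod.fst, (P', Q) ∈ Y ∧ cv P' ∈ heavy V Bad w (P', Q) := by
      intro P' hP'
      obtain ⟨p, hp, rfl⟩ := Finset.mem_image.1 hP'
      obtain ⟨hp1, hp2⟩ := Finset.mem_filter.1 hp
      obtain ⟨hp3, hp4⟩ := Finset.mem_filter.1 hp1
      have hpe : (p.1, Q) = p := by rw [← hp2]
      rw [hpe]
      exact ⟨(Finset.mem_filter.1 hp3).1, hp4⟩
    refine ⟨(false, Q, F.image Prod.fst), ?_, ?_, ?_, fun _ => hmem, fun h => by simp at h⟩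
    · obtain ⟨p, hp⟩ := hFne
      exact (hY _ (hmem p.1 (Finset.mem_image_of_mem _ hp)).1).2
    · intro P' hP'
      exact (hY _ (hmem P' hP').1).1
    · show (x : ℝ) / (2 * q) ≤ ((F.image Prod.fst).card : ℝ)
      rw [hcard]; exact hQ
  · have hc' : (x : ℝ) / 2 ≤ ((bp.filter (fun p => ¬ cv p.1 ∈ heavy V Bad w p)).card : ℝ) := by
      linarith
    obtain ⟨Q, -, hQ⟩ := Finset.exists_le_card_fiber_of_nsmul_le_card_of_maps_to
      (s := bp.filter (fun p => ¬ cv p.1 ∈ heavy V Bad w p)) (t := (Finset.univ : Finset (Fin q)))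
      (f := fun p => p.1) (b := (x : ℝ) / (2 * q)) (fun a _ => Finset.mem_univ _)
      Finset.univ_nonempty (by
        rw [nsmul_eq_mul, Finset.card_univ, Fintype.card_fin]
        have : (q : ℝ) * ((x : ℝ) / (2 * q)) = x / 2 := by field_simp
        rw [this]; exact hc')
    set F := (bp.filter (fun p => ¬ cv p.1 ∈ heavy V Bad w p)).filter (fun p => p.1 = Q) with hF
    have hFne : F.Nonempty := by
      rw [← Finset.card_pos]
      have : (0 : ℝ) < (x : ℝ) / (2 * q) := by positivity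
      exact_mod_cast lt_of_lt_of_le this hQ
    have hcard : (F.image Prod.snd).card = F.card := by
      apply Finset.card_image_of_injOn
      intro a ha b hb hab
      have ha2 : a.1 = Q := (Finset.mem_filter.1 ha).2
      have hb2 : b.1 = Q := (Finset.mem_filter.1 hb).2
      exact Prod.ext (ha2.trans hb2.symm) hab
    have hmem : ∀ P' ∈ F.image Prod.snd, (Q, P') ∈ Y ∧ (cv Q, cv P') ∈ Bad (Q, P') ∧
        cv Q ∉ heavy V Bad w (Q, P') := by
      intro P' hP'
      obtain ⟨p, hp, rfl⟩ := Finset.mem_image.1 hP'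
      obtain ⟨hp1, hp2⟩ := Finset.mem_filter.1 hp
      obtain ⟨hp3, hp4⟩ := Finset.mem_filter.1 hp1
      have hpe : (Q, p.2) = p := by rw [← hp2]
      obtain ⟨hp5, hp6⟩ := Finset.mem_filter.1 hp3
      rw [hpe]
      rw [hp2] at hp4 hp6
      exact ⟨hp5, hp6, hp4⟩
    refine ⟨(true, Q, F.image Prod.snd), ?_, ?_, ?_, fun h => by simp at h, fun _ => hmem⟩
    · obtain ⟨p, hp⟩ := hFne
      exact (hY _ (hmem p.2 (Finset.mem_image_of_mem _ hp)).1).1
    · intro P' hP'
      exact (hY _ (hmem P' hP').1).2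
    · show (x : ℝ) / (2 * q) ≤ ((F.image Prod.snd).card : ℝ)
      rw [hcard]; exact hQ

end S3

open S3 in
theorem pairreg {Ω : Type} {A : Finset Ω} (hA : A.Nonempty) {cv : Ω → Conf q n}
    {PP : Finset (Fin q)} {V : Fin q → Finset (Finset (Fin n))} {ξ η : ℝ} (hξ : 0 < ξ)
    (hη : 0 ≤ η) (hreg : RegC A cv PP V ξ η) (hcv : ∀ Z ∈ A, ∀ P ∈ PP, cv Z P ∈ V P)
    (hup : ∀ P ∈ PP, lb (V P).card ≤ Lg n) (hn : 1 ≤ n) {w : ℝ} (hw : 0 ≤ w)
    (Y : Prs q) (hY : ∀ p ∈ Y, p.1 ∈ PP ∧ p.2 ∈ PP)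
    (Bad : Fin q × Fin q → Finset (Finset (Fin n) × Finset (Fin n)))
    (hBad : ∀ p ∈ Y, lb (Bad p).card ≤ lb (V p.1).card + lb (V p.2).card - 2 * w ∨ Bad p = ∅)
    {x : ℕ} {N : ℕ} (hN : 1 ≤ N)
    (hnum : η + 2 * q + lb q + Lg n + lb N + 3 < ξ * w * (x / (2 * q))) :
    N * (A.filter (fun Z => x < (Y.filter (fun p => (cv Z p.1, cv Z p.2) ∈ Bad p)).card)).card
      ≤ A.card := by
  by_contra hcon
  push Not at hcon
  set A₁ := A.filter (fun Z => x < (Y.filter (fun p => (cv Z p.1, cv Z p.2) ∈ Bad p)).card)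
    with hA₁
  have hLn : 0 ≤ Lg n := Real.logb_nonneg (by norm_num) (by exact_mod_cast hn)
  have hlq := lb_nonneg q
  have hlN := lb_nonneg N
  have hq0 : (0 : ℝ) ≤ q := Nat.cast_nonneg _
  have hx0 : 0 < x := by
    rcases Nat.eq_zero_or_pos x with h | h
    · subst h
      simp only [Nat.cast_zero, zero_div, mul_zero] at hnum
      linarith
    · exact h
  have hA₁ne : A₁.Nonempty := by
    rw [← Finset.card_pos]
    rcases Nat.eq_zero_or_pos A₁.card with h | h
    · rw [h] at hcon; simp at hcon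
    · exact h
  have hcode : ∀ Z ∈ A₁, ∃ c, Good (cv Z) PP V w Y Bad x c := by
    intro Z hZ
    exact exists_code (cv Z) PP V w Y hY Bad x hx0 (Finset.mem_filter.1 hZ).2
  obtain ⟨Z₀, hZ₀⟩ := hA₁ne
  obtain ⟨c₀, -⟩ := hcode Z₀ hZ₀
  have hqpos : 0 < q := lt_of_le_of_lt (Nat.zero_le _) c₀.2.1.2
  have hcode' : ∀ Z, ∃ c, Z ∈ A₁ → Good (cv Z) PP V w Y Bad x c := by
    intro Z
    by_cases hZ : Z ∈ A₁
    · obtain ⟨c, hc⟩ := hcode Z hZ
      exact ⟨c, fun _ => hc⟩
    · exact ⟨c₀, fun h => absurd h hZ⟩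
  choose f hf using hcode'
  obtain ⟨c, -, A₂, hA₂, hne2, hlb2⟩ := pigeon A₁
    (Finset.univ : Finset (Bool × Fin q × Finset (Fin q))) f
    ⟨Z₀, hZ₀⟩ (fun a _ => Finset.mem_univ _)
  have hcardc : (Finset.univ : Finset (Bool × Fin q × Finset (Fin q))).card = 2 * (q * 2 ^ q) := by
    rw [Finset.card_univ, Fintype.card_prod, Fintype.card_prod, Fintype.card_bool,
      Fintype.card_fin, Fintype.card_finset, Fintype.card_fin]
  rw [hcardc, lb_mul (by norm_num) (by positivity), lb_mul hqpos (by positivity), lb_two,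
    lb_two_pow] at hlb2
  have hgood : ∀ Z ∈ A₂, Good (cv Z) PP V w Y Bad x c := by
    intro Z hZ
    obtain ⟨h1, h2⟩ := hA₂ Z hZ
    rw [← h2]; exact hf Z h1
  have hA₂A : ∀ Z ∈ A₂, Z ∈ A := fun Z hZ =>
    (Finset.mem_filter.1 (hA₂ Z hZ).1).1
  obtain ⟨Z₂, hZ₂⟩ := hne2
  have hPP : c.2.1 ∈ PP := (hgood Z₂ hZ₂).1
  obtain ⟨v, -, A₃, hA₃, hne3, hlb3⟩ := pigeon A₂ (V c.2.1) (fun Z => cv Z c.2.1) ⟨Z₂, hZ₂⟩
    (fun Z hZ => hcv Z (hA₂A Z hZ) _ hPP)
  have hA₃A : A₃ ⊆ A := fun Z hZ => hA₂A Z (hA₃ Z hZ).1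
  have hr := hreg A₃ hA₃A hne3
  have hVne : ∀ P ∈ PP, 0 < (V P).card := by
    intro P hP
    obtain ⟨Z, hZ⟩ := hA
    exact Finset.card_pos.2 ⟨_, hcv Z hZ P hP⟩
  have himg : ∀ P ∈ PP, A₃.image (fun Z => cv Z P) ⊆ V P := by
    intro P hP v hv
    obtain ⟨Z, hZ, rfl⟩ := Finset.mem_image.1 hv
    exact hcv Z (hA₃A hZ) P hP
  have hterm0 : ∀ P ∈ PP, 0 ≤ lb (V P).card - lb (A₃.image (fun Z => cv Z P)).card := by
    intro P hP
    have := lb_mono (Finset.card_pos.2 (hne3.image (fun Z => cv Z P)))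
      (Finset.card_le_card (himg P hP))
    linarith
  have hSub : c.2.2 ⊆ PP := (hgood Z₂ hZ₂).2.1
  have hSx : (x : ℝ) / (2 * q) ≤ c.2.2.card := (hgood Z₂ hZ₂).2.2.1
  have htermw : ∀ P ∈ c.2.2, w ≤ lb (V P).card - lb (A₃.image (fun Z => cv Z P)).card := by
    intro P hP
    rcases hb : c.1 with _ | _
    · -- heavy case
      have hall : ∀ Z ∈ A₃, cv Z P ∈ heavy V Bad w (P, c.2.1) := by
        intro Z hZ
        exact ((hgood Z (hA₃ Z hZ).1).2.2.2.1 hb P hP).2
      have hYm : (P, c.2.1) ∈ Y := ((hgood Z₂ hZ₂).2.2.2.1 hb P hP).1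
      obtain ⟨Z₃, hZ₃⟩ := hne3
      have h1 := heavy_card V Bad w (P, c.2.1) (hBad _ hYm) ⟨_, hall Z₃ hZ₃⟩
      have h2 : lb (A₃.image (fun Z => cv Z P)).card ≤ lb (heavy V Bad w (P, c.2.1)).card := by
        apply lb_mono (Finset.card_pos.2 ⟨_, Finset.mem_image_of_mem _ hZ₃⟩)
        apply Finset.card_le_card
        intro v hv
        obtain ⟨Z, hZ, rfl⟩ := Finset.mem_image.1 hv
        exact hall Z hZ
      simp only at h1
      linarith
    · have hall : ∀ Z ∈ A₃, (v, cv Z P) ∈ Bad (c.2.1, P) ∧ v ∉ heavy V Bad w (c.2.1, P) := by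
        intro Z hZ
        obtain ⟨hZ1, hZ2⟩ := hA₃ Z hZ
        have := ((hgood Z hZ1).2.2.2.2 hb P hP).2
        rw [hZ2] at this
        exact this
      obtain ⟨Z₃, hZ₃⟩ := hne3
      have hvV : v ∈ V c.2.1 := by
        have := hcv Z₃ (hA₃A hZ₃) _ hPP
        rw [(hA₃ Z₃ hZ₃).2] at this
        exact this
      have hnh := (hall Z₃ hZ₃).2
      have hlt : ((((Bad (c.2.1, P)).filter (fun u => u.1 = v)).card : ℕ) : ℝ) <
          (2 : ℝ) ^ (lb (V P).card - w) := by
        by_contra hge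
        push Not at hge
        exact hnh (Finset.mem_filter.2 ⟨hvV, hge⟩)
      have himg2 : (A₃.image (fun Z => cv Z P)).card ≤
          ((Bad (c.2.1, P)).filter (fun u => u.1 = v)).card := by
        have hsub : A₃.image (fun Z => cv Z P) ⊆
            ((Bad (c.2.1, P)).filter (fun u => u.1 = v)).image Prod.snd := by
          intro v' hv'
          obtain ⟨Z, hZ, rfl⟩ := Finset.mem_image.1 hv'
          exact Finset.mem_image.2 ⟨(v, cv Z P), Finset.mem_filter.2 ⟨(hall Z hZ).1, rfl⟩, rfl⟩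
        exact (Finset.card_le_card hsub).trans Finset.card_image_le
      have hpos : 0 < (A₃.image (fun Z => cv Z P)).card :=
        Finset.card_pos.2 ⟨_, Finset.mem_image_of_mem _ hZ₃⟩
      have h3 : (((A₃.image (fun Z => cv Z P)).card : ℕ) : ℝ) ≤
          (2 : ℝ) ^ (lb (V P).card - w) := by
        have : (((A₃.image (fun Z => cv Z P)).card : ℕ) : ℝ) ≤
          (((Bad (c.2.1, P)).filter (fun u => u.1 = v)).card : ℕ) := by exact_mod_cast himg2
        linarith
      have h4 := Real.logb_le_logb_of_le (b := 2) (by norm_num) (by exact_mod_cast hpos) h3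
      rw [Real.logb_rpow (by norm_num) (by norm_num)] at h4
      have h5 : lb (A₃.image (fun Z => cv Z P)).card ≤ lb (V P).card - w := h4
      linarith
  have hsum : w * (x / (2 * q)) ≤
      ∑ P ∈ PP, (lb (V P).card - lb (A₃.image (fun Z => cv Z P)).card) := by
    calc w * ((x : ℝ) / (2 * q)) ≤ w * c.2.2.card := mul_le_mul_of_nonneg_left hSx hw
      _ = ∑ P ∈ c.2.2, w := by rw [Finset.sum_const, nsmul_eq_mul]; ring
      _ ≤ ∑ P ∈ c.2.2, (lb (V P).card - lb (A₃.image (fun Z => cv Z P)).card) :=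
        Finset.sum_le_sum htermw
      _ ≤ _ := Finset.sum_le_sum_of_subset_of_nonneg hSub (fun P hP _ => hterm0 P hP)
  have hr2 : ξ * w * (x / (2 * q)) - η ≤ lb A.card - lb A₃.card := by
    have := mul_le_mul_of_nonneg_left hsum hξ.le
    nlinarith
  have hVup := hup _ hPP
  have hAA₁ : lb A.card ≤ lb N + lb A₁.card := by
    rw [← lb_mul (by omega) (Finset.card_pos.2 ⟨Z₀, hZ₀⟩)]
    exact lb_mono hA.card_pos hcon.le
  linarith

end Pool.Agent.Helper65.CG
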